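import Pool.Agent.Y658.VR.Cor

/-!
# Functorial realization over every field, with and without order-units

`KRng K` is the category of (not necessarily unital) `K`-algebras, `UMon` the category of conical
commutative monoids with an order-unit.
-/

set_option autoImplicit false

namespace Pool.Agent.Y658.VR

open scoped Classical
open CategoryTheory Pool.Agent.H494R3.VR

/-- An algebra over the field `K`, not necessarily with unit. -/
structure KRng (K : Type) [Field K] where
  carrier : Type
  str : NonUnitalRing carrier
  mod : Module K carrier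
  tower : IsScalarTower K carrier carrier
  comm : SMulCommClass K carrier carrier

section
variable {K : Type} [Field K]

instance (A : KRng K) : NonUnitalRing A.carrier := A.str
instance (A : KRng K) : Module K A.carrier := A.mod
instance (A : KRng K) : IsScalarTower K A.carrier A.carrier := A.tower
instance (A : KRng K) : SMulCommClass K A.carrier A.carrier := A.comm

/-- A homomorphism of `K`-algebras: a ring homomorphism (nothing about units) which is
`K`-linear. -/
structure KHom (A B : KRng K) where
  hom : A.carrier →ₙ+* B.carrier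
  smul : ∀ (c : K) (x : A.carrier), hom (c • x) = c • hom x

theorem KHom.ext' {A B : KRng K} {f g : KHom A B} (h : ∀ x, f.hom x = g.hom x) : f = g := by
  cases f
  cases g
  congr
  exact NonUnitalRingHom.ext h

theorem KHom.id_smul (A : KRng K) (c : K) (x : A.carrier) :
    NonUnitalRingHom.id A.carrier (c • x) = c • NonUnitalRingHom.id A.carrier x := rfl

/-- the identity -/
def KHom.id (A : KRng K) : KHom A A := ⟨NonUnitalRingHom.id A.carrier, KHom.id_smul A⟩

theorem KHom.comp_smul {A B C : KRng K} (f : KHom A B) (g : KHom B C) (c : K) (x : A.carrier) :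
    g.hom.comp f.hom (c • x) = c • g.hom.comp f.hom x :=
  (congrArg g.hom (f.smul c x)).trans (g.smul c (f.hom x))

/-- the composite: first `f`, then `g` -/
def KHom.comp {A B C : KRng K} (f : KHom A B) (g : KHom B C) : KHom A C :=
  ⟨g.hom.comp f.hom, KHom.comp_smul f g⟩

/-- The category of `K`-algebras; morphisms are the `K`-linear ring homomorphisms. -/
instance : Category (KRng K) where
  Hom := KHom
  id := KHom.id
  comp := KHom.comp

end

/-- The underlying ring of a `K`-algebra. -/
def toRng (K : Type) [Field K] : KRng K ⥤ Rng where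
  obj A := ⟨A.carrier, A.str⟩
  map f := KHom.hom f

/-- A conical commutative monoid with an order-unit. -/
structure UMon where
  carrier : Type
  str : AddCommMonoid carrier
  conical : ∀ x y : carrier, x + y = 0 → x = 0 ∧ y = 0
  unit : carrier
  order : ∀ x : carrier, ∃ (n : ℕ) (z : carrier), x + z = n • unit

instance (M : UMon) : AddCommMonoid M.carrier := M.str

/-- A homomorphism of monoids which sends the order-unit to the order-unit. -/
structure UHom (M N : UMon) where
  hom : M.carrier →+ N.carrier
  map_unit : hom M.unit = N.unit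

theorem UHom.ext' {M N : UMon} {f g : UHom M N} (h : ∀ x, f.hom x = g.hom x) : f = g := by
  cases f
  cases g
  congr
  exact AddMonoidHom.ext h

/-- the identity -/
def UHom.id (M : UMon) : UHom M M := ⟨AddMonoidHom.id M.carrier, rfl⟩

theorem UHom.comp_unit {M N P : UMon} (f : UHom M N) (g : UHom N P) :
    g.hom.comp f.hom M.unit = P.unit :=
  (congrArg g.hom f.map_unit).trans g.map_unit

/-- the composite: first `f`, then `g` -/
def UHom.comp {M N P : UMon} (f : UHom M N) (g : UHom N P) : UHom M P :=
  ⟨g.hom.comp f.hom, UHom.comp_unit f g⟩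

/-- The category of conical commutative monoids with an order-unit; morphisms are all monoid
homomorphisms which send the order-unit to the order-unit. -/
instance : Category UMon where
  Hom := UHom
  id := UHom.id
  comp := UHom.comp

/-- The monoid `V(A)` of a unital ring with its order-unit `[1]`. -/
def UV (A : Type) [Ring A] : UMon := ⟨VV A, inferInstance, VV.conical, VV.mk (onI A 1), order_unit A⟩

theorem UV_unit {A B : Type} [Ring A] [Ring B] (f : A →+* B) :
    VV.map f.toNonUnitalRingHom (VV.mk (onI A 1)) = VV.mk (onI B 1) := by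
  have h : ((onI A 1).map f.toNonUnitalRingHom).mat = (onI B 1).mat := by
    show (1 : Matrix (Fin 1) (Fin 1) A).map f = 1
    rw [Matrix.map_one]
    · exact map_zero f
    · exact map_one f
  show VV.mk ((onI A 1).map f.toNonUnitalRingHom) = VV.mk (onI B 1)
  apply VV.mk_eq.2
  rw [h]
  exact Eqv.refl (onI B 1).idem

/-- The homomorphism `V(f)` of a unital ring homomorphism `f`. -/
def UVm {A B : Type} [Ring A] [Ring B] (f : A →+* B) : UHom (UV A) (UV B) :=
  ⟨VV.map f.toNonUnitalRingHom, UV_unit f⟩

theorem UVm_id (A : Type) [Ring A] : UVm (RingHom.id A) = UHom.id (UV A) := by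
  apply UHom.ext'
  rintro ⟨a⟩
  rfl

theorem UVm_comp {A B C : Type} [Ring A] [Ring B] [Ring C] (f : A →+* B) (g : B →+* C) :
    UVm (g.comp f) = UHom.comp (UVm f) (UVm g) := by
  apply UHom.ext'
  rintro ⟨a⟩
  rfl

/-- The functor `A ↦ (V(A), [1])` from unital `K`-algebras to conical commutative monoids with an
order-unit. -/
def V1 (K : Type) [Field K] : AlgCat.{0} K ⥤ UMon where
  obj A := UV A
  map f := UVm f.hom.toRingHom
  map_id A := UVm_id A
  map_comp f g := UVm_comp f.hom.toRingHom g.hom.toRingHom

/-! ### the functor to algebras -/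

section alg
variable (K : Type) [Field K] (M : Type) [AddCommMonoid M]

noncomputable instance smRR : SMul K (RR K M) :=
  ⟨fun c u => ⟨c • u.1, by rw [mem_RR, map_smul, mem_RR.1 u.2, smul_zero]⟩⟩

/-- the inclusion as a homomorphism of groups -/
noncomputable def incA : RR K M →+ UU K M where
  toFun u := u.1
  map_zero' := rfl
  map_add' _ _ := rfl

noncomputable instance mRR : Module K (RR K M) :=
  Function.Injective.module K (incA K M) Subtype.val_injective (fun _ _ => rfl)

instance tRR : IsScalarTower K (RR K M) (RR K M) :=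
  ⟨fun c a b => Subtype.ext (smul_mul_assoc c a.1 b.1)⟩

instance cRR : SMulCommClass K (RR K M) (RR K M) :=
  ⟨fun c a b => Subtype.ext (mul_smul_comm c a.1 b.1).symm⟩

variable {K M}

theorem rmap_smul {M' : Type} [AddCommMonoid M'] (θ : M →+ M') (c : K) (u : RR K M) :
    rmap K θ (c • u) = c • rmap K θ u :=
  Subtype.ext (map_smul (umap K θ) c u.1)

end alg

/-- the functor to `K`-algebras -/
noncomputable def PsiK (K : Type) [Field K] : ConMon ⥤ KRng K where
  obj M := ⟨RR K M.carrier, inferInstance, mRR K M.carrier, tRR K M.carrier, cRR K M.carrier⟩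
  map θ := ⟨rmap K θ, fun c u => rmap_smul θ c u⟩
  map_id M := by
    apply KHom.ext'
    intro u
    exact Subtype.ext (umap_id u.1)
  map_comp θ η := by
    apply KHom.ext'
    intro u
    exact Subtype.ext (umap_comp θ η u.1)

/-- the components -/
noncomputable def etaK (K : Type) [Field K] (M : ConMon) :
    (𝟭 ConMon).obj M ≅ (PsiK K ⋙ toRng K ⋙ Vfun).obj M where
  hom := eta K M.carrier
  inv := (AddEquiv.ofBijective (eta K M.carrier) ⟨eta_inj, eta_surj⟩).symm.toAddMonoidHom
  hom_inv_id := by
    apply AddMonoidHom.ext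
    intro x
    exact (AddEquiv.ofBijective (eta K M.carrier) ⟨eta_inj, eta_surj⟩).symm_apply_apply x
  inv_hom_id := by
    apply AddMonoidHom.ext
    intro x
    exact (AddEquiv.ofBijective (eta K M.carrier) ⟨eta_inj, eta_surj⟩).apply_symm_apply x

/-- **every field** -/
noncomputable def isoK (K : Type) [Field K] : PsiK K ⋙ toRng K ⋙ Vfun ≅ 𝟭 ConMon :=
  (NatIso.ofComponents (F := 𝟭 ConMon) (G := PsiK K ⋙ toRng K ⋙ Vfun) (etaK K) (by
    intro M M' θ
    apply AddMonoidHom.ext
    intro m
    exact (eta_nat (k := K) θ m).symm)).symm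

/-! ### the functor to unital algebras -/

section crn
variable {R : Type} [NonUnitalRing R]

/-- the corner, as a ring with the unit `e` -/
def CR (e : R) (_ : e * e = e) : Type := Crn e

instance nuC (e : R) (he : e * e = e) : NonUnitalRing (CR e he) :=
  inferInstanceAs (NonUnitalRing (Crn e))

instance rC (e : R) (he : e * e = e) : Ring (CR e he) :=
  { nuC e he with
    one := (⟨e, he, he⟩ : Crn e)
    one_mul := fun a => Subtype.ext a.2.1
    mul_one := fun a => Subtype.ext a.2.2 }

variable {K : Type} [Field K] [Module K R] [IsScalarTower K R R] [SMulCommClass K R R]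

instance smC (e : R) (he : e * e = e) : SMul K (CR e he) :=
  ⟨fun c a => (⟨c • a.1, by rw [mul_smul_comm, a.2.1], by rw [smul_mul_assoc, a.2.2]⟩ : Crn e)⟩

/-- the inclusion as a homomorphism of groups -/
def injA (e : R) (he : e * e = e) : CR e he →+ R where
  toFun u := u.1
  map_zero' := rfl
  map_add' _ _ := rfl

instance mC (e : R) (he : e * e = e) : Module K (CR e he) :=
  Function.Injective.module K (injA e he) Subtype.val_injective (fun _ _ => rfl)

instance aC (e : R) (he : e * e = e) : Algebra K (CR e he) :=
  Algebra.ofModule (fun c a b => Subtype.ext (smul_mul_assoc c a.1 b.1))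
    (fun c a b => Subtype.ext (mul_smul_comm c a.1 b.1))

end crn

section one
variable (K : Type) [Field K]

/-- the ring of the monoid `M` with the order-unit `u` -/
abbrev CU {M : Type} [AddCommMonoid M] (u : M) : Type := CR (eR K u) (eR_idem u)

/-- the map between the corners -/
noncomputable def cmap {M M' : Type} [AddCommMonoid M] [AddCommMonoid M'] (θ : M →+ M') (u : M)
    (u' : M') (h : θ u = u') : CU K u →ₐ[K] CU K u' :=
  AlgHom.ofLinearMap
    { toFun := fun a => (⟨rmap K θ a.1, by
          rw [← h, ← rmap_eR, ← map_mul, a.2.1], by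
          rw [← h, ← rmap_eR, ← map_mul, a.2.2]⟩ : Crn (eR K u'))
      map_add' := fun a b => Subtype.ext (map_add (rmap K θ) a.1 b.1)
      map_smul' := fun c a => Subtype.ext (rmap_smul θ c a.1) }
    (Subtype.ext (by
      show rmap K θ (eR K u) = eR K u'
      rw [rmap_eR, h]))
    (fun a b => Subtype.ext (map_mul (rmap K θ) a.1 b.1))

theorem cmap_coe {M M' : Type} [AddCommMonoid M] [AddCommMonoid M'] (θ : M →+ M') (u : M)
    (u' : M') (h : θ u = u') (a : CU K u) : (cmap K θ u u' h a).1 = rmap K θ a.1 := rfl

/-- the functor to unital `K`-algebras -/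
noncomputable def Psi1 : UMon ⥤ AlgCat.{0} K where
  obj M := AlgCat.of K (CU K M.unit)
  map {M M'} θ := AlgCat.ofHom (cmap K (UHom.hom θ) M.unit M'.unit (UHom.map_unit θ))
  map_id M := by
    apply AlgCat.hom_ext
    apply AlgHom.ext
    intro a
    apply Subtype.ext
    exact Subtype.ext (umap_id a.1.1)
  map_comp θ η := by
    apply AlgCat.hom_ext
    apply AlgHom.ext
    intro a
    apply Subtype.ext
    exact Subtype.ext (umap_comp (UHom.hom θ) (UHom.hom η) a.1.1)

theorem VVC_surj (M : UMon) : Function.Surjective (VV.map (inj (eR K M.unit))) := by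
  have : Conical M.carrier := ⟨M.conical⟩
  intro a
  obtain ⟨m, rfl⟩ := eta_surj (k := K) (M := M.carrier) a
  obtain ⟨n, z, hz⟩ := M.order m
  have hs : ∑ _i : Fin n, M.unit = n • M.unit := by
    rw [Finset.sum_const, Finset.card_univ, Fintype.card_fin]
  refine VV_mem (eR K M.unit) _ (eta K M.carrier z) n
    (Matrix.diagonal (fun _ => eR K M.unit)) rfl (diag_idem (fun _ => M.unit)) ?_
  rw [diag_class n (fun _ => M.unit), hs, ← hz, map_add]

/-- `V` of the corner is `V` of the ring -/
noncomputable def eqC (M : UMon) : VV (Crn (eR K M.unit)) ≃+ VV (RR K M.carrier) :=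
  AddEquiv.ofBijective (VV.map (inj (eR K M.unit))) ⟨VV_inj _, VVC_surj K M⟩

/-- `eta` as an isomorphism -/
noncomputable def eqM (M : UMon) : M.carrier ≃+ VV (RR K M.carrier) :=
  haveI : Conical M.carrier := ⟨M.conical⟩
  AddEquiv.ofBijective (eta K M.carrier) ⟨eta_inj, eta_surj⟩

theorem eqM_apply (M : UMon) (m : M.carrier) : eqM K M m = eta K M.carrier m := rfl

theorem eqC_apply (M : UMon) (x : VV (Crn (eR K M.unit))) :
    eqC K M x = VV.map (inj (eR K M.unit)) x := rfl

/-- the isomorphism of monoids -/
noncomputable def gg (M : UMon) : VV (CU K M.unit) ≃+ M.carrier :=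
  (eqC K M).trans (eqM K M).symm

theorem gg_apply (M : UMon) (x : VV (CU K M.unit)) : eta K M.carrier (gg K M x) =
    VV.map (inj (eR K M.unit)) x :=
  (eqM K M).apply_symm_apply _

theorem gg_one (M : UMon) : gg K M (VV.mk (onI (CU K M.unit) 1)) = M.unit := by
  apply (eqM K M).injective
  rw [eqM_apply, gg_apply, eqM_apply, eta_apply]
  show VV.mk ((onI (CU K M.unit) 1).map (inj (eR K M.unit))) = VV.mk (eI1 K M.unit)
  apply VV.mk_eq.2
  have : ((onI (CU K M.unit) 1).map (inj (eR K M.unit))).mat = (eI1 K M.unit).mat := by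
    show (1 : Matrix (Fin 1) (Fin 1) (CU K M.unit)).map (inj (eR K M.unit)) = sc (eR K M.unit)
    funext i j
    have h : i = j := Subsingleton.elim _ _
    subst h
    have h1 : (1 : Matrix (Fin 1) (Fin 1) (CU K M.unit)) i i = 1 := Matrix.one_apply_eq i
    exact congrArg (fun a : CU K M.unit => a.1) h1
  rw [this]
  exact Eqv.refl (eI1 K M.unit).idem

/-- the components -/
noncomputable def iso1c (M : UMon) : (Psi1 K ⋙ V1 K).obj M ≅ (𝟭 UMon).obj M where
  hom := ⟨(gg K M).toAddMonoidHom, gg_one K M⟩
  inv := ⟨(gg K M).symm.toAddMonoidHom, by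
    show (gg K M).symm M.unit = VV.mk (onI (CU K M.unit) 1)
    exact (AddEquiv.symm_apply_eq _).2 (gg_one K M).symm⟩
  hom_inv_id := by
    apply UHom.ext'
    intro x
    exact (gg K M).symm_apply_apply x
  inv_hom_id := by
    apply UHom.ext'
    intro x
    exact (gg K M).apply_symm_apply x

theorem nat1 {M M' : UMon} (θ : UHom M M') (x : VV (CU K M.unit)) :
    gg K M' (VV.map (cmap K θ.1 M.unit M'.unit θ.2).toRingHom.toNonUnitalRingHom x) =
      θ.1 (gg K M x) := by
  apply (eqM K M').injective
  rw [eqM_apply, gg_apply, eqM_apply, ← eta_nat, gg_apply]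
  obtain ⟨E⟩ := x
  rfl

/-- **order-units** -/
noncomputable def iso1 : Psi1 K ⋙ V1 K ≅ 𝟭 UMon :=
  NatIso.ofComponents (iso1c K) (by
    intro M M' θ
    apply UHom.ext'
    intro x
    exact nat1 K θ x)

end one

end Pool.Agent.Y658.VR
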