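import Pool.Agent.H494R3.VR.B10

/-!
# Nonstable K-theory of corners
-/

set_option autoImplicit false

namespace Pool.Agent.Y658.VR

open scoped Classical
open CategoryTheory Pool.Agent.H494R3.VR

section corner
variable {R : Type} [NonUnitalRing R]

/-- the corner `e R e` -/
def Crn (e : R) : NonUnitalSubring R where
  carrier := {a | e * a = a ∧ a * e = a}
  add_mem' := by
    rintro a b ⟨h1, h2⟩ ⟨h3, h4⟩
    exact ⟨by rw [mul_add, h1, h3], by rw [add_mul, h2, h4]⟩
  zero_mem' := ⟨mul_zero e, zero_mul e⟩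
  neg_mem' := by
    rintro a ⟨h1, h2⟩
    exact ⟨by rw [mul_neg, h1], by rw [neg_mul, h2]⟩
  mul_mem' := by
    rintro a b ⟨h1, h2⟩ ⟨h3, h4⟩
    exact ⟨by rw [← mul_assoc, h1], by rw [mul_assoc, h4]⟩

/-- the inclusion of the corner -/
def inj (e : R) : Crn e →ₙ+* R where
  toFun a := a.1
  map_zero' := rfl
  map_add' _ _ := rfl
  map_mul' _ _ := rfl

theorem lft {ι κ μ : Type} [Fintype κ] {e : R} {P : Matrix ι κ R}
    (h : ∀ i j, e * P i j = P i j) (X : Matrix κ μ R) :
    ∀ i j, e * (P * X) i j = (P * X) i j := by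
  intro i j
  rw [Matrix.mul_apply, Finset.mul_sum]
  exact Finset.sum_congr rfl fun a _ => by rw [← mul_assoc, h]

theorem rgt {ι κ μ : Type} [Fintype κ] {e : R} {Q : Matrix κ μ R}
    (h : ∀ i j, Q i j * e = Q i j) (X : Matrix ι κ R) :
    ∀ i j, (X * Q) i j * e = (X * Q) i j := by
  intro i j
  rw [Matrix.mul_apply, Finset.sum_mul]
  exact Finset.sum_congr rfl fun a _ => by rw [mul_assoc, h]

theorem lftC {ι κ : Type} {e : R} {A : Matrix ι κ R}
    (h : ∀ i j, e * A i j = A i j ∧ A i j * e = A i j) :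
    ∃ B : Matrix ι κ (Crn e), B.map (inj e) = A := ⟨fun i j => ⟨A i j, h i j⟩, rfl⟩

theorem mapC_inj {ι κ : Type} {e : R} {a b : Matrix ι κ (Crn e)}
    (h : a.map (inj e) = b.map (inj e)) : a = b := by
  ext i j
  have := congrFun (congrFun h i) j
  exact this

theorem VV_inj (e : R) : Function.Injective (VV.map (inj e)) := by
  rintro ⟨E⟩ ⟨F⟩ h
  have h' : Eqv (E.mat.map (inj e)) (F.mat.map (inj e)) := VV.mk_eq.1 h
  obtain ⟨x, y, h1, h2⟩ := h'
  have hP : E.mat.map (inj e) * E.mat.map (inj e) = E.mat.map (inj e) := by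
    rw [← Matrix.map_mul, E.idem]
  have hQ : F.mat.map (inj e) * F.mat.map (inj e) = F.mat.map (inj e) := by
    rw [← Matrix.map_mul, F.idem]
  have hPm : ∀ i j, e * (E.mat.map (inj e)) i j = (E.mat.map (inj e)) i j ∧
      (E.mat.map (inj e)) i j * e = (E.mat.map (inj e)) i j := fun i j => (E.mat i j).2
  have hQm : ∀ i j, e * (F.mat.map (inj e)) i j = (F.mat.map (inj e)) i j ∧
      (F.mat.map (inj e)) i j * e = (F.mat.map (inj e)) i j := fun i j => (F.mat i j).2
  obtain ⟨x', hx'⟩ := lftC (e := e) (A := E.mat.map (inj e) * x * F.mat.map (inj e))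
    (fun i j => ⟨by rw [Matrix.mul_assoc]; exact lft (fun i j => (hPm i j).1) _ i j,
      rgt (fun i j => (hQm i j).2) _ i j⟩)
  obtain ⟨y', hy'⟩ := lftC (e := e) (A := F.mat.map (inj e) * y * E.mat.map (inj e))
    (fun i j => ⟨by rw [Matrix.mul_assoc]; exact lft (fun i j => (hQm i j).1) _ i j,
      rgt (fun i j => (hPm i j).2) _ i j⟩)
  set p := E.mat.map (inj e)
  set q := F.mat.map (inj e)
  have hyx : x * q * y = p := by
    calc x * q * y = (x * y) * (x * y) := by rw [← h2]; simp only [Matrix.mul_assoc]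
      _ = p := by rw [h1, hP]
  have hxy : y * p * x = q := by
    calc y * p * x = (y * x) * (y * x) := by rw [← h1]; simp only [Matrix.mul_assoc]
      _ = q := by rw [h2, hQ]
  refine VV.mk_eq.2 ⟨x', y', mapC_inj ?_, mapC_inj ?_⟩
  · rw [Matrix.map_mul, hx', hy']
    calc p * x * q * (q * y * p) = p * (x * (q * q) * y) * p := by
          simp only [Matrix.mul_assoc]
      _ = p := by rw [hQ, hyx, hP, hP]
  · rw [Matrix.map_mul, hx', hy']
    calc q * y * p * (p * x * q) = q * (y * (p * p) * x) * q := by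
          simp only [Matrix.mul_assoc]
      _ = q := by rw [hP, hxy, hQ, hQ]

theorem VV_mem (e : R) (a b : VV R) (n : ℕ) (D : Matrix (Fin n) (Fin n) R)
    (hD : D = Matrix.diagonal (fun _ => e)) (hDD : D * D = D)
    (h : a + b = VV.mk ⟨n, D, hDD⟩) : ∃ c : VV (Crn e), VV.map (inj e) c = a := by
  obtain ⟨A, rfl⟩ : ∃ A, VV.mk A = a := Quotient.exists_rep a
  obtain ⟨B, rfl⟩ : ∃ B, VV.mk B = b := Quotient.exists_rep b
  rw [VV.add_mk] at h
  have h1 : Eqv (A.add B).mat D := VV.mk_eq.1 h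
  have h2 := Eqv.blk A.idem B.idem
  have h3 : Eqv (Matrix.fromBlocks A.mat 0 0 B.mat) D :=
    Eqv.trans (idem_blocks A.idem B.idem) hDD h2 h1
  obtain ⟨x, y, hx, hy⟩ := h3
  obtain ⟨A', hA'⟩ : ∃ A' : Matrix (Fin A.size ⊕ Fin B.size) (Fin A.size ⊕ Fin B.size) R,
    A' = Matrix.fromBlocks A.mat 0 0 0 := ⟨_, rfl⟩
  have hAA : A' * A' = A' := by
    rw [hA']
    exact idem_blocks A.idem (by simp)
  have hl : A' * (x * y) = A' := by
    rw [hx, hA', Matrix.fromBlocks_multiply]
    simp [A.idem]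
  have hr : (x * y) * A' = A' := by
    rw [hx, hA', Matrix.fromBlocks_multiply]
    simp [A.idem]
  obtain ⟨p, hpd⟩ : ∃ p, p = y * A' * x := ⟨_, rfl⟩
  have hp : p * p = p := by
    rw [hpd]
    calc y * A' * x * (y * A' * x) = y * (A' * (x * y) * A') * x := by
          simp only [Matrix.mul_assoc]
      _ = y * A' * x := by rw [hl, hAA]
  have hDp : D * p = p := by
    rw [hpd, ← hy]
    calc y * x * (y * A' * x) = y * ((x * y) * A') * x := by simp only [Matrix.mul_assoc]
      _ = y * A' * x := by rw [hr]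
  have hpD : p * D = p := by
    rw [hpd, ← hy]
    calc y * A' * x * (y * x) = y * (A' * (x * y)) * x := by simp only [Matrix.mul_assoc]
      _ = y * A' * x := by rw [hl]
  have he1 : ∀ i j, e * p i j = p i j := by
    intro i j
    have := congrFun (congrFun hDp i) j
    rw [hD, Matrix.diagonal_mul] at this
    exact this
  have he2 : ∀ i j, p i j * e = p i j := by
    intro i j
    have := congrFun (congrFun hpD i) j
    rw [hD, Matrix.mul_diagonal] at this
    exact this
  obtain ⟨P, hP⟩ := lftC (e := e) (A := p) (fun i j => ⟨he1 i j, he2 i j⟩)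
  have hPP : P * P = P := mapC_inj (by rw [Matrix.map_mul, hP, hp])
  refine ⟨VV.mk ⟨n, P, hPP⟩, ?_⟩
  show VV.mk (Idem.map (inj e) ⟨n, P, hPP⟩) = VV.mk A
  rw [VV.mk_eq]
  show Eqv (P.map (inj e)) A.mat
  rw [hP]
  have h4 : Eqv p A' := by
    refine ⟨y * A', A' * x, ?_, ?_⟩
    · rw [hpd]
      calc y * A' * (A' * x) = y * (A' * A') * x := by simp only [Matrix.mul_assoc]
        _ = y * A' * x := by rw [hAA]
    · calc A' * x * (y * A') = A' * (x * y) * A' := by simp only [Matrix.mul_assoc]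
        _ = A' := by rw [hl, hAA]
  rw [hA'] at h4
  exact Eqv.trans hp A.idem h4 (Eqv.stab A.idem)

end corner

/-! ### unital rings -/

section unital
variable (A : Type) [Ring A]

/-- the class of the unit matrix -/
def onI (n : ℕ) : Idem A := ⟨n, 1, one_mul _⟩

theorem one_class (n : ℕ) : VV.mk (onI A n) = n • VV.mk (onI A 1) := by
  induction n with
  | zero =>
    rw [zero_smul, VV.zero_mk, VV.mk_eq]
    have : (onI A 0).mat = 0 := by
      ext i; exact i.elim0
    rw [this]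
    exact Eqv.zero
  | succ n ih =>
    rw [succ_nsmul, ← ih, VV.add_mk, VV.mk_eq]
    have : blk (1 : Matrix (Fin n) (Fin n) A) (1 : Matrix (Fin 1) (Fin 1) A) =
        (1 : Matrix (Fin (n + 1)) (Fin (n + 1)) A) := by
      unfold blk
      rw [Matrix.fromBlocks_one, Matrix.submatrix_one_equiv]
    show Eqv (1 : Matrix (Fin (n + 1)) (Fin (n + 1)) A)
      (blk (1 : Matrix (Fin n) (Fin n) A) (1 : Matrix (Fin 1) (Fin 1) A))
    rw [this]
    exact Eqv.refl (one_mul _)

theorem order_unit (x : VV A) : ∃ (n : ℕ) (z : VV A), x + z = n • VV.mk (onI A 1) := by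
  obtain ⟨E, rfl⟩ : ∃ E, VV.mk E = x := Quotient.exists_rep x
  have hF : (1 - E.mat) * (1 - E.mat) = 1 - E.mat := by
    rw [sub_mul, mul_sub, mul_sub, E.idem]
    simp
  refine ⟨E.size, VV.mk ⟨E.size, 1 - E.mat, hF⟩, ?_⟩
  rw [← one_class, VV.add_mk, VV.mk_eq]
  have h1 : Eqv (Matrix.fromBlocks E.mat 0 0 (1 - E.mat))
      (1 : Matrix (Fin E.size) (Fin E.size) A) := by
    refine ⟨Matrix.fromRows E.mat (1 - E.mat), Matrix.fromCols E.mat (1 - E.mat), ?_, ?_⟩
    · rw [rowcol, E.idem, hF, mul_sub, sub_mul, E.idem, mul_one, one_mul, sub_self]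
    · rw [colrow, E.idem, hF]
      simp
  exact Eqv.trans (Idem.idem _) (one_mul _) (Eqv.blk E.idem hF).symm h1

end unital

end Pool.Agent.Y658.VR
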